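import Mathlib

set_option autoImplicit false

/-!
# MP_b39627: monotone minorants with large derivative product, in every dimension
-/

namespace Pool.Agent.Results.MP_b39627_an.MonotoneMinorant

open Filter Topology Set

variable {m : ℕ}

/-- The closed nonnegative orthant. -/
def Orthant (m : ℕ) : Set (Fin m → ℝ) := {x | 0 ≤ x}

/-- `u` is nonnegative and increasing in each variable on the orthant, and vanishes on the
coordinate hyperplanes. -/
structure Admissible (u : (Fin m → ℝ) → ℝ) : Prop where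
  nonneg : ∀ x, 0 ≤ x → 0 ≤ u x
  mono : ∀ x y, 0 ≤ x → x ≤ y → u x ≤ u y
  zero : ∀ x, 0 ≤ x → (∃ i, x i = 0) → u x = 0

/-- The product of the partial derivatives of `w` is at least `C` at every point of the orthant at
which `w` is differentiable and differs from `u`. -/
def LargeProduct (C : ℝ) (u w : (Fin m → ℝ) → ℝ) : Prop :=
  ∀ x ∈ Orthant m, ∀ f' : (Fin m → ℝ) →L[ℝ] ℝ, HasFDerivWithinAt w f' (Orthant m) x →
    w x ≠ u x → C ≤ ∏ i, f' (Pi.single i 1)

/-- The geometric mean. -/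
noncomputable def G (h : Fin m → ℝ) : ℝ := (∏ i, h i) ^ (1 / (m : ℝ))

theorem G_nonneg {h : Fin m → ℝ} (hh : 0 ≤ h) : 0 ≤ G h :=
  Real.rpow_nonneg (Finset.prod_nonneg fun i _ => hh i) _

theorem G_mono {x y : Fin m → ℝ} (hx : 0 ≤ x) (hxy : x ≤ y) : G x ≤ G y :=
  Real.rpow_le_rpow (Finset.prod_nonneg fun i _ => hx i)
    (Finset.prod_le_prod (fun i _ => hx i) fun i _ => hxy i) (by positivity)

theorem G_eq {h : Fin m → ℝ} (hh : 0 ≤ h) : G h = ∏ i, h i ^ (1 / (m : ℝ)) :=
  (Real.finsetProd_rpow _ _ (fun i _ => hh i) _).symm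

theorem continuous_G : Continuous (G : (Fin m → ℝ) → ℝ) := by
  unfold G
  exact (continuous_finsetProd _ fun i _ => continuous_apply i).rpow_const
    fun _ => Or.inr (by positivity)

theorem G_smul (hm : 1 ≤ m) (t : ℝ) (ht : 0 ≤ t) {h : Fin m → ℝ} (hh : 0 ≤ h) :
    G (t • h) = t * G h := by
  have hm' : (m : ℝ) ≠ 0 := by positivity
  unfold G
  simp only [Pi.smul_apply, smul_eq_mul]
  rw [Finset.prod_mul_distrib, Finset.prod_const, Finset.card_univ, Fintype.card_fin,
    Real.mul_rpow (by positivity) (Finset.prod_nonneg fun i _ => hh i), ← Real.rpow_natCast,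
    ← Real.rpow_mul ht, mul_one_div_cancel hm', Real.rpow_one]

theorem G_zero_of (hm : 1 ≤ m) {h : Fin m → ℝ} (i : Fin m) (hi : h i = 0) : G h = 0 := by
  unfold G
  rw [Finset.prod_eq_zero (Finset.mem_univ i) hi, Real.zero_rpow]
  positivity

/-- Superadditivity of the geometric mean. -/
theorem G_add (hm : 1 ≤ m) {x h : Fin m → ℝ} (hx : 0 ≤ x) (hh : 0 ≤ h) :
    G x + G h ≤ G (x + h) := by
  have hm' : (m : ℝ) ≠ 0 := by positivity
  have hs : 0 ≤ x + h := add_nonneg hx hh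
  by_cases h0 : ∃ i, (x + h) i = 0
  · obtain ⟨i, hi⟩ := h0
    have h1 := hx i
    have h2 := hh i
    simp only [Pi.add_apply, Pi.zero_apply] at hi h1 h2
    rw [G_zero_of hm i (h := x) (by linarith), G_zero_of hm i (h := h) (by linarith), add_zero]
    exact G_nonneg hs
  · push Not at h0
    have hpos : ∀ i, 0 < (x + h) i := fun i => lt_of_le_of_ne (hs i) (h0 i).symm
    have key : ∀ y : Fin m → ℝ, 0 ≤ y →
        G y ≤ G (x + h) * ((1 / (m : ℝ)) * ∑ i, y i / (x + h) i) := by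
      intro y hy
      have e1 : G y = G (x + h) * ∏ i, (y i / (x + h) i) ^ (1 / (m : ℝ)) := by
        rw [G_eq hs, G_eq hy, ← Finset.prod_mul_distrib]
        refine Finset.prod_congr rfl fun i _ => ?_
        rw [← Real.mul_rpow (hs i) (div_nonneg (hy i) (hs i)), mul_div_cancel₀ _ (hpos i).ne']
      rw [e1]
      refine mul_le_mul_of_nonneg_left ?_ (G_nonneg hs)
      have := Real.geom_mean_le_arith_mean_weighted Finset.univ (fun _ : Fin m => 1 / (m : ℝ))
        (fun i => y i / (x + h) i) (fun _ _ => by positivity) (by simp [hm'])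
        (fun i _ => div_nonneg (hy i) (hs i))
      rwa [← Finset.mul_sum] at this
    have h1 := key x hx
    have h2 := key h hh
    have h3 : (∑ i, x i / (x + h) i) + ∑ i, h i / (x + h) i = m := by
      rw [← Finset.sum_add_distrib]
      have : ∀ i ∈ (Finset.univ : Finset (Fin m)), x i / (x + h) i + h i / (x + h) i = 1 := by
        intro i _
        rw [← add_div]
        exact div_self (hpos i).ne'
      rw [Finset.sum_congr rfl this]
      simp
    calc G x + G h ≤ G (x + h) * ((1 / (m : ℝ)) * ((∑ i, x i / (x + h) i) +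
          ∑ i, h i / (x + h) i)) := by rw [mul_add, mul_add]; linarith
      _ = G (x + h) := by rw [h3, one_div_mul_cancel hm', mul_one]

/-- The cost function. -/
noncomputable def P (κ : ℝ) (a x : Fin m → ℝ) (i : Fin m) : ℝ :=
  κ * G (Function.update x i (x i - a i))

/-- The maximal cost. -/
noncomputable def D (κ : ℝ) (a x : Fin m → ℝ) : ℝ := ⨆ i, P κ a x i

/-- The minorant. -/
noncomputable def W (κ : ℝ) (u : (Fin m → ℝ) → ℝ) (x : Fin m → ℝ) : ℝ :=
  sInf {r | ∃ a, 0 ≤ a ∧ a ≤ x ∧ r = u a + D κ a x}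

theorem P_le_D (κ : ℝ) (a x : Fin m → ℝ) (i : Fin m) : P κ a x i ≤ D κ a x :=
  le_ciSup (Set.finite_range _).bddAbove i

section

variable {κ : ℝ} (hκ : 0 ≤ κ) {u : (Fin m → ℝ) → ℝ} (hu : Admissible u) (hm : 1 ≤ m)

theorem update_nonneg {a x : Fin m → ℝ} (hx : 0 ≤ x) (i : Fin m) (hax : a i ≤ x i) :
    0 ≤ Function.update x i (x i - a i) := by
  intro j
  by_cases h : j = i
  · subst h
    simpa using hax
  · simpa [h] using hx j

include hm

theorem D_le {a x : Fin m → ℝ} {r : ℝ} (h : ∀ i, P κ a x i ≤ r) : D κ a x ≤ r := by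
  have : Nonempty (Fin m) := ⟨⟨0, hm⟩⟩
  exact ciSup_le h

include hκ

theorem D_nonneg {a x : Fin m → ℝ} (ha : 0 ≤ a) (hax : a ≤ x) : 0 ≤ D κ a x :=
  (mul_nonneg hκ (G_nonneg (update_nonneg (ha.trans hax) ⟨0, hm⟩ (hax _)))).trans
    (P_le_D κ a x ⟨0, hm⟩)

include hu

theorem W_le {a x : Fin m → ℝ} (ha : 0 ≤ a) (hax : a ≤ x) : W κ u x ≤ u a + D κ a x := by
  refine csInf_le ⟨0, ?_⟩ ⟨a, ha, hax, rfl⟩
  rintro _ ⟨b, hb, hbx, rfl⟩
  exact add_nonneg (hu.nonneg b hb) (D_nonneg hκ hm hb hbx)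

omit hκ hu hm in
theorem le_W {x : Fin m → ℝ} (hx : 0 ≤ x) {r : ℝ}
    (h : ∀ a, 0 ≤ a → a ≤ x → r ≤ u a + D κ a x) : r ≤ W κ u x := by
  refine le_csInf ⟨_, x, hx, le_rfl, rfl⟩ ?_
  rintro _ ⟨a, ha, hax, rfl⟩
  exact h a ha hax

theorem W_nonneg {x : Fin m → ℝ} (hx : 0 ≤ x) : 0 ≤ W κ u x :=
  le_W hx fun a ha hax => add_nonneg (hu.nonneg a ha) (D_nonneg hκ hm ha hax)

theorem W_le_u {x : Fin m → ℝ} (hx : 0 ≤ x) : W κ u x ≤ u x := by
  refine (W_le hκ hu hm hx le_rfl).trans ?_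
  have : D κ x x ≤ 0 := D_le hm fun i => by
    unfold P
    rw [G_zero_of hm i (by simp), mul_zero]
  linarith

theorem W_mono {x y : Fin m → ℝ} (hx : 0 ≤ x) (hxy : x ≤ y) : W κ u x ≤ W κ u y := by
  refine le_W (hx.trans hxy) fun a ha hay => ?_
  have h0 : 0 ≤ a ⊓ x := le_inf ha hx
  refine (W_le hκ hu hm h0 inf_le_right).trans (add_le_add (hu.mono _ _ h0 inf_le_left) ?_)
  refine D_le hm fun i => le_trans ?_ (P_le_D κ a y i)
  refine mul_le_mul_of_nonneg_left (G_mono (update_nonneg hx i ((inf_le_right : a ⊓ x ≤ x) i)) ?_) hκ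
  intro j
  by_cases h : j = i
  · subst h
    simp only [Function.update_self, Pi.inf_apply]
    have h1 := hxy j
    have h2 := hay j
    rcases le_total (a j) (x j) with h3 | h3
    · rw [inf_eq_left.2 h3]; linarith
    · rw [inf_eq_right.2 h3]; linarith
  · simpa [h] using hxy j

/-- The growth inequality. -/
theorem growth {x h : Fin m → ℝ} (hx : 0 ≤ x) (hh : 0 ≤ h) :
    min (W κ u x + κ * G h) (u x) ≤ W κ u (x + h) := by
  refine le_W (add_nonneg hx hh) fun a ha hax => ?_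
  by_cases hall : x ≤ a
  · refine (min_le_right _ _).trans ((hu.mono _ _ hx hall).trans ?_)
    exact le_add_of_nonneg_right (D_nonneg hκ hm ha hax)
  · have : ∃ i, a i < x i := by
      by_contra hcon
      push Not at hcon
      exact hall hcon
    obtain ⟨i₀, hi₀⟩ := this
    have h0 : 0 ≤ a ⊓ x := le_inf ha hx
    refine (min_le_left _ _).trans ?_
    have h1 := W_le hκ hu hm h0 (inf_le_right : a ⊓ x ≤ x)
    have h2 := hu.mono _ _ h0 (inf_le_left : a ⊓ x ≤ a)
    have key : ∀ i, a i ≤ x i → κ * G (Function.update x i (x i - a i)) + κ * G h ≤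
        D κ a (x + h) := by
      intro i hi
      refine le_trans ?_ (P_le_D κ a (x + h) i)
      rw [← mul_add]
      refine mul_le_mul_of_nonneg_left ((G_add hm (update_nonneg hx i hi) hh).trans
        (le_of_eq ?_)) hκ
      congr 1
      ext j
      by_cases hj : j = i
      · subst hj
        simp only [Pi.add_apply, Function.update_self]
        ring
      · simp [hj]
    have h3 : D κ (a ⊓ x) x + κ * G h ≤ D κ a (x + h) := by
      rw [← le_sub_iff_add_le]
      refine D_le hm fun i => ?_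
      rw [le_sub_iff_add_le]
      unfold P
      rcases le_or_gt (a i) (x i) with hi | hi
      · rw [Pi.inf_apply, inf_eq_left.2 hi]
        exact key i hi
      · rw [Pi.inf_apply, inf_eq_right.2 hi.le, G_zero_of hm i (by simp), mul_zero, zero_add]
        refine le_trans ?_ (key i₀ hi₀.le)
        exact le_add_of_nonneg_left (mul_nonneg hκ (G_nonneg (update_nonneg hx i₀ hi₀.le)))
    linarith

theorem continuousOn_W : ContinuousOn (W κ u) (Orthant m) := by
  have : Nonempty (Fin m) := ⟨⟨0, hm⟩⟩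
  have hPc : ∀ i, Continuous fun p : (Fin m → ℝ) × (Fin m → ℝ) => P κ p.1 p.2 i := by
    intro i
    unfold P
    refine continuous_const.mul (continuous_G.comp ?_)
    exact continuous_snd.update i
      (((continuous_apply i).comp continuous_snd).sub ((continuous_apply i).comp continuous_fst))
  intro x₀ hx₀
  have hx₀' : 0 ≤ x₀ := hx₀
  rw [Metric.continuousWithinAt_iff]
  intro ε hε
  let K : Set (Fin m → ℝ) := Icc 0 (x₀ + 1)
  have hK : IsCompact (K ×ˢ K) := (isCompact_Icc).prod isCompact_Icc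
  have hunif : ∀ i, ∃ δ > 0, ∀ a ∈ K, ∀ x ∈ K, ∀ y ∈ K, dist x y < δ →
      |P κ a x i - P κ a y i| < ε / 2 := by
    intro i
    have := hK.uniformContinuousOn_of_continuous (hPc i).continuousOn
    rw [Metric.uniformContinuousOn_iff] at this
    obtain ⟨δ, hδ, h⟩ := this (ε / 2) (half_pos hε)
    refine ⟨δ, hδ, fun a ha x hx y hy hxy => ?_⟩
    have := h (a, x) ⟨ha, hx⟩ (a, y) ⟨ha, hy⟩ (by
      rw [Prod.dist_eq]
      simpa [hδ] using hxy)
    exact this
  choose δ hδ hunif using hunif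
  obtain ⟨i₁, hi₁⟩ := Finite.exists_min δ
  have hD : ∀ a ∈ K, ∀ x ∈ K, ∀ y ∈ K, dist x y < δ i₁ → D κ a y ≤ D κ a x + ε / 2 := by
    intro a ha x hx y hy hxy
    refine D_le hm fun i => ?_
    have h1 := hunif i a ha x hx y hy (hxy.trans_le (hi₁ i))
    have h2 := P_le_D κ a x i
    rw [abs_lt] at h1
    linarith
  have hW : ∀ x y, 0 ≤ x → x ≤ y → y ∈ K → dist x y < δ i₁ → W κ u y ≤ W κ u x + ε / 2 := by
    intro x y hx hxy hy hd
    rw [← sub_le_iff_le_add]
    refine le_W hx fun a ha hax => ?_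
    have h1 := W_le hκ hu hm ha (hax.trans hxy)
    have h2 := hD a ⟨ha, hax.trans (hxy.trans hy.2)⟩ x ⟨hx, hxy.trans hy.2⟩ y hy hd
    linarith
  refine ⟨min (δ i₁) 1, lt_min (hδ _) one_pos, fun y hy hd => ?_⟩
  have hy' : 0 ≤ y := hy
  have hyK : y ∈ K := by
    refine ⟨hy', fun i => ?_⟩
    have h1 : dist (y i) (x₀ i) ≤ dist y x₀ := dist_le_pi_dist y x₀ i
    have h2 := hd.trans_le (min_le_right _ _)
    rw [Real.dist_eq] at h1
    have := le_abs_self (y i - x₀ i)
    simp only [Pi.add_apply, Pi.one_apply]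
    linarith
  have hxK : x₀ ∈ K := ⟨hx₀', fun i => by simp⟩
  have hz0 : 0 ≤ y ⊓ x₀ := le_inf hy' hx₀'
  have hzy : dist (y ⊓ x₀) y ≤ dist y x₀ := by
    refine (dist_pi_le_iff dist_nonneg).2 fun i => ?_
    refine le_trans ?_ (dist_le_pi_dist y x₀ i)
    rw [Pi.inf_apply, Real.dist_eq, Real.dist_eq]
    rcases le_total (y i) (x₀ i) with h | h
    · rw [inf_eq_left.2 h, sub_self, abs_zero]
      exact abs_nonneg _
    · rw [inf_eq_right.2 h, abs_sub_comm]
  have hzx : dist (y ⊓ x₀) x₀ ≤ dist y x₀ := by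
    refine (dist_pi_le_iff dist_nonneg).2 fun i => ?_
    refine le_trans ?_ (dist_le_pi_dist y x₀ i)
    rw [Pi.inf_apply, Real.dist_eq, Real.dist_eq]
    rcases le_total (y i) (x₀ i) with h | h
    · rw [inf_eq_left.2 h]
    · rw [inf_eq_right.2 h, sub_self, abs_zero]
      exact abs_nonneg _
  have hd1 := hd.trans_le (min_le_left _ _)
  have h1 := hW _ y hz0 inf_le_left hyK (hzy.trans_lt hd1)
  have h2 := hW _ x₀ hz0 inf_le_right hxK (hzx.trans_lt hd1)
  have h3 := W_mono hκ hu hm hz0 (inf_le_left : y ⊓ x₀ ≤ y)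
  have h4 := W_mono hκ hu hm hz0 (inf_le_right : y ⊓ x₀ ≤ x₀)
  rw [Real.dist_eq, abs_lt]
  constructor <;> linarith

/-- Lower bound for the derivative. -/
theorem deriv_ge {x : Fin m → ℝ} (hx : 0 ≤ x) (f' : (Fin m → ℝ) →L[ℝ] ℝ)
    (hf : HasFDerivWithinAt (W κ u) f' (Orthant m) x) (hne : W κ u x ≠ u x)
    {h : Fin m → ℝ} (hh : 0 ≤ h) : κ * G h ≤ f' h := by
  have hlt : W κ u x < u x := lt_of_le_of_ne (W_le_u hκ hu hm hx) hne
  have hseq : Tendsto (fun n : ℕ => (1 / ((n : ℝ) + 1))) atTop (𝓝 0) :=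
    tendsto_one_div_add_atTop_nhds_zero_nat
  have hpos : ∀ n : ℕ, (0 : ℝ) < 1 / ((n : ℝ) + 1) := fun n => by positivity
  have hlim : Tendsto (fun n : ℕ => (1 / ((n : ℝ) + 1))⁻¹ •
      (W κ u (x + (1 / ((n : ℝ) + 1)) • h) - W κ u x)) atTop (𝓝 (f' h)) := by
    refine hf.lim (l := atTop) (c := fun n : ℕ => (1 / ((n : ℝ) + 1))⁻¹)
      (d := fun n : ℕ => (1 / ((n : ℝ) + 1)) • h) ?_ ?_ ?_
    · have : Tendsto (fun n : ℕ => (1 / ((n : ℝ) + 1)) • h) atTop (𝓝 ((0 : ℝ) • h)) :=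
        hseq.smul_const h
      simpa using this
    · refine Eventually.of_forall fun n => ?_
      exact add_nonneg hx (smul_nonneg (hpos n).le hh)
    · refine tendsto_const_nhds.congr fun n => ?_
      rw [smul_smul, inv_mul_cancel₀ (hpos n).ne', one_smul]
  refine ge_of_tendsto hlim ?_
  have hev : ∀ᶠ n : ℕ in atTop, W κ u x + (1 / ((n : ℝ) + 1)) * (κ * G h) < u x := by
    have : Tendsto (fun n : ℕ => W κ u x + (1 / ((n : ℝ) + 1)) * (κ * G h)) atTop
        (𝓝 (W κ u x + 0 * (κ * G h))) := (hseq.mul_const _).const_add _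
    rw [zero_mul, add_zero] at this
    exact this.eventually (gt_mem_nhds hlt)
  filter_upwards [hev] with n hn
  have h1 := growth hκ hu hm hx (smul_nonneg (hpos n).le hh)
  rw [G_smul hm _ (hpos n).le hh] at h1
  have h2 : W κ u x + κ * (1 / ((n : ℝ) + 1) * G h) ≤
      W κ u (x + (1 / ((n : ℝ) + 1)) • h) := by
    rw [min_eq_left (by linarith)] at h1
    exact h1
  rw [smul_eq_mul, ← div_eq_inv_mul, le_div_iff₀ (hpos n)]
  linarith

end

theorem prod_ge (hm : 1 ≤ m) {C : ℝ} (hC : 0 < C) (f' : (Fin m → ℝ) →L[ℝ] ℝ)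
    (hf : ∀ h : Fin m → ℝ, 0 ≤ h → (m * C ^ (1 / (m : ℝ))) * G h ≤ f' h) :
    C ≤ ∏ i, f' (Pi.single i 1) := by
  have hm' : (0 : ℝ) < m := by positivity
  set p : Fin m → ℝ := fun i => f' (Pi.single i 1) with hp
  have hfh : ∀ h : Fin m → ℝ, f' h = ∑ i, h i * p i := by
    intro h
    conv_lhs => rw [← Finset.univ_sum_single h]
    rw [map_sum]
    refine Finset.sum_congr rfl fun i _ => ?_
    have : (Pi.single i (h i) : Fin m → ℝ) = h i • Pi.single i 1 := by
      ext j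
      by_cases hj : j = i
      · subst hj; simp
      · simp [hj]
    rw [this, map_smul, smul_eq_mul]
  have hp0 : ∀ i, 0 ≤ p i := by
    intro i
    have h0 : (0 : Fin m → ℝ) ≤ Pi.single i 1 := Pi.single_nonneg.2 zero_le_one
    exact (mul_nonneg (by positivity) (G_nonneg h0)).trans (hf _ h0)
  have key : ∀ δ : ℝ, 0 < δ → C ≤ ∏ i, (p i + δ) := by
    intro δ hδ
    have hq : ∀ i, 0 < p i + δ := fun i => add_pos_of_nonneg_of_pos (hp0 i) hδ
    have h0 : (0 : Fin m → ℝ) ≤ fun i => (p i + δ)⁻¹ := fun i => (inv_pos.2 (hq i)).le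
    have h1 := hf _ h0
    rw [hfh] at h1
    have h2 : ∑ i, (p i + δ)⁻¹ * p i ≤ m := by
      have : ∑ i, (p i + δ)⁻¹ * p i ≤ ∑ _i : Fin m, (1 : ℝ) := by
        refine Finset.sum_le_sum fun i _ => ?_
        rw [inv_mul_le_iff₀ (hq i)]
        linarith
      simpa using this
    have h3 : (m : ℝ) * (C ^ (1 / (m : ℝ)) * G fun i => (p i + δ)⁻¹) ≤ m * 1 := by
      rw [mul_one, ← mul_assoc]
      exact h1.trans h2
    have h4 := le_of_mul_le_mul_left h3 hm'
    unfold G at h4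
    have hprod : (0 : ℝ) < ∏ i, (p i + δ) := Finset.prod_pos fun i _ => hq i
    rw [Finset.prod_inv_distrib, ← Real.mul_rpow hC.le (inv_pos.2 hprod).le] at h4
    have h5 : C * (∏ i, (p i + δ))⁻¹ ≤ 1 := by
      by_contra hcon
      push Not at hcon
      exact absurd h4 (not_le.2 (Real.one_lt_rpow hcon (by positivity)))
    rwa [mul_inv_le_iff₀ hprod, one_mul] at h5
  have hlim : Tendsto (fun n : ℕ => ∏ i, (p i + 1 / ((n : ℝ) + 1))) atTop
      (𝓝 (∏ i, (p i + 0))) :=
    tendsto_finsetProd _ fun i _ => tendsto_one_div_add_atTop_nhds_zero_nat.const_add (p i)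
  simp only [add_zero] at hlim
  exact ge_of_tendsto' hlim fun n => key _ (by positivity)

/-- In every dimension `m ≥ 1`, every admissible `u` and every `C > 0` admit a continuous minorant,
increasing in each variable, with large derivative product. -/
theorem result (m : ℕ) (hm : 1 ≤ m) (u : (Fin m → ℝ) → ℝ) (hu : Admissible u) (C : ℝ)
    (hC : 0 < C) :
    ∃ w : (Fin m → ℝ) → ℝ, ContinuousOn w (Orthant m) ∧
      (∀ x y, 0 ≤ x → x ≤ y → w x ≤ w y) ∧ (∀ x, 0 ≤ x → 0 ≤ w x ∧ w x ≤ u x) ∧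
      LargeProduct C u w := by
  have hκ : (0 : ℝ) ≤ m * C ^ (1 / (m : ℝ)) := by positivity
  refine ⟨W (m * C ^ (1 / (m : ℝ))) u, continuousOn_W hκ hu hm,
    fun x y hx hxy => W_mono hκ hu hm hx hxy,
    fun x hx => ⟨W_nonneg hκ hu hm hx, W_le_u hκ hu hm hx⟩, ?_⟩
  intro x hx f' hf hne
  exact prod_ge hm hC f' fun h hh => deriv_ge hκ hu hm hx f' hf hne hh

end Pool.Agent.Results.MP_b39627_an.MonotoneMinorant
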